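import Pool.Agent.Helper1.OQ.Main

/-!
# Oriented paths in oriented graphs of large minimum semidegree, without any upper degree bound

The hand-in is `result`. The two corollaries at the end spell out special cases of it: every
oriented path at semidegree `(3/4 + ε) k`, and antidirected paths at semidegree `(1/2 + ε) k`
(the second corollary is known in a sharper form: Grzesik and Skrzypczyk).
-/

set_option autoImplicit false

namespace Pool.Agent.Results.MP_f8e2d3_co.AllHosts

/-- Let `ε > 0` and `k ≥ k₀(ε)`, let `σ` be the oriented path with `k` arcs whose `i`-th arc points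
forward if `σ i = true` and backward if `σ i = false`, and let `S` be a set of arcs of the path no
two of which are consecutive arcs with the same direction. Then every finite nonempty oriented
graph all of whose out-degrees and in-degrees are at least `k - |S| / 2 + ε k` contains `σ`. -/
theorem result :
    ∀ ε : ℝ, 0 < ε → ∃ k₀ : ℕ, ∀ k : ℕ, k₀ ≤ k → ∀ (σ : Fin k → Bool) (S : Finset (Fin k)),
      (∀ i ∈ S, ∀ j ∈ S, (j : ℕ) = i + 1 → σ i ≠ σ j) →
      ∀ (V : Type) [Finite V] [Nonempty V] (G : Digraph V),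
      (∀ u v, G.Adj u v → ¬ G.Adj v u) →
      (∀ v, (k : ℝ) - (S.card : ℝ) / 2 + ε * k ≤ ({w | G.Adj v w}.ncard : ℝ) ∧
        (k : ℝ) - (S.card : ℝ) / 2 + ε * k ≤ ({w | G.Adj w v}.ncard : ℝ)) →
      ∃ f : Fin (k + 1) → V, Function.Injective f ∧
        ∀ i : Fin k, (σ i = true → G.Adj (f i.castSucc) (f i.succ)) ∧
          (σ i = false → G.Adj (f i.succ) (f i.castSucc)) := by
  classical
  intro ε hε
  obtain ⟨k₀, hmain⟩ := Pool.Agent.Helper1.OQ.main ε hε
  refine ⟨k₀, ?_⟩
  intro k hk σ S hS V _ _ G hG hlow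
  have hfin : Nonempty (Fintype V) := ⟨Fintype.ofFinite V⟩
  obtain ⟨hF⟩ := hfin
  set R : Bool → V → V → Prop := fun b v w => if b = true then G.Adj v w else G.Adj w v with hR
  have hRt : ∀ v w, R true v w ↔ G.Adj v w := fun v w => by simp [hR]
  have hRf : ∀ v w, R false v w ↔ G.Adj w v := fun v w => by simp [hR]
  set N : Bool → V → Finset V := fun b v => Finset.univ.filter fun w => R b v w with hN
  have hmem : ∀ b v w, w ∈ N b v ↔ R b v w := fun b v w => by simp [hN]
  have hR1 : ∀ b x y, y ∈ N b x → x ∈ N (!b) y := by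
    intro b x y h
    rw [hmem] at h ⊢
    cases b
    · exact (hRt _ _).2 ((hRf _ _).1 h)
    · exact (hRf _ _).2 ((hRt _ _).1 h)
  have hR2 : ∀ b x y, y ∈ N b x → x ∉ N b y := by
    intro b x y h h'
    rw [hmem] at h h'
    cases b
    · exact hG _ _ ((hRf _ _).1 h) ((hRf _ _).1 h')
    · exact hG _ _ ((hRt _ _).1 h) ((hRt _ _).1 h')
  have hcardt : ∀ v, (N true v).card = {w | G.Adj v w}.ncard := by
    intro v
    rw [← Set.ncard_coe_finset]
    congr 1
    ext w
    rw [Finset.mem_coe, hmem, hRt]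
    rfl
  have hcardf : ∀ v, (N false v).card = {w | G.Adj w v}.ncard := by
    intro v
    rw [← Set.ncard_coe_finset]
    congr 1
    ext w
    rw [Finset.mem_coe, hmem, hRf]
    rfl
  set P : ℕ → Bool := fun t => if h : t < k then σ ⟨t, h⟩ else true with hP
  have hPσ : ∀ i : Fin k, P i = σ i := fun i => by simp [hP]
  set S' : Finset ℕ := S.map Fin.valEmbedding with hS'
  have hS'c : S'.card = S.card := Finset.card_map _
  have hS'm : ∀ p ∈ S', ∃ i ∈ S, (i : ℕ) = p := by
    intro p hp
    rw [hS', Finset.mem_map] at hp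
    exact hp
  obtain ⟨X, hX1, hX2⟩ := hmain k hk P S'
    (by
      intro p hp
      obtain ⟨i, _, rfl⟩ := hS'm p hp
      exact Finset.mem_range.2 i.2)
    (by
      intro p hp hp1
      obtain ⟨i, hi, rfl⟩ := hS'm p hp
      obtain ⟨j, hj, hji⟩ := hS'm _ hp1
      rw [← hji, hPσ, hPσ]
      exact hS i hi j hj hji)
    V N hR2 hR1
    (by
      intro b v
      rw [hS'c]
      cases b
      · rw [hcardf]
        exact (hlow v).2
      · rw [hcardt]
        exact (hlow v).1)
  refine ⟨fun i => X i, ?_, ?_⟩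
  · intro a b hab
    exact Fin.ext (hX2 a (Nat.lt_succ_iff.1 a.2) b (Nat.lt_succ_iff.1 b.2) hab)
  · intro i
    have h1 := hX1 i i.2
    rw [hPσ, hmem] at h1
    refine ⟨fun hs => ?_, fun hs => ?_⟩
    · rw [hs] at h1
      exact (hRt _ _).1 h1
    · rw [hs] at h1
      exact (hRf _ _).1 h1

/-- Corollary: every oriented path at minimum semidegree `(3/4 + ε) k`. -/
theorem every_path :
    ∀ ε : ℝ, 0 < ε → ∃ k₀ : ℕ, ∀ k : ℕ, k₀ ≤ k → ∀ σ : Fin k → Bool,
      ∀ (V : Type) [Finite V] [Nonempty V] (G : Digraph V),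
      (∀ u v, G.Adj u v → ¬ G.Adj v u) →
      (∀ v, (3 / 4 + ε) * (k : ℝ) ≤ ({w | G.Adj v w}.ncard : ℝ) ∧
        (3 / 4 + ε) * (k : ℝ) ≤ ({w | G.Adj w v}.ncard : ℝ)) →
      ∃ f : Fin (k + 1) → V, Function.Injective f ∧
        ∀ i : Fin k, (σ i = true → G.Adj (f i.castSucc) (f i.succ)) ∧
          (σ i = false → G.Adj (f i.succ) (f i.castSucc)) := by
  classical
  intro ε hε
  obtain ⟨k₀, h⟩ := result ε hε
  refine ⟨k₀, ?_⟩
  intro k hk σ V _ _ G hG hlow
  set S : Finset (Fin k) := Finset.univ.filter fun i : Fin k => (i : ℕ) % 2 = 0 with hS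
  have hSc : (k : ℝ) / 2 ≤ S.card := by
    have h1 : k ≤ 2 * S.card := by
      have h2 : (Finset.univ : Finset (Fin k)).card ≤ S.card + S.card := by
        have h3 : ((Finset.univ : Finset (Fin k)).filter fun i : Fin k => ¬ (i : ℕ) % 2 = 0).card ≤
            S.card := by
          refine Finset.card_le_card_of_injOn
            (fun i : Fin k => (⟨(i : ℕ) - 1, by have := i.2; omega⟩ : Fin k)) ?_ ?_
          · intro i hi
            rw [Finset.mem_coe, Finset.mem_filter] at hi
            rw [Finset.mem_coe, hS, Finset.mem_filter]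
            refine ⟨Finset.mem_univ _, ?_⟩
            show ((i : ℕ) - 1) % 2 = 0
            omega
          · intro i hi j hj hij
            rw [Finset.mem_coe, Finset.mem_filter] at hi hj
            have := congrArg Fin.val hij
            simp only at this
            apply Fin.ext
            omega
        have h4 := Finset.card_filter_add_card_filter_not
          (s := (Finset.univ : Finset (Fin k))) (fun i : Fin k => (i : ℕ) % 2 = 0)
        rw [← hS] at h4
        omega
      rw [Finset.card_univ, Fintype.card_fin] at h2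
      omega
    have h2 : (k : ℝ) ≤ 2 * S.card := by exact_mod_cast h1
    linarith
  apply h k hk σ S _ V G hG
  · intro v
    have := hlow v
    constructor <;> nlinarith
  · intro i hi j hj hij
    rw [hS, Finset.mem_filter] at hi hj
    omega

/-- Corollary: antidirected paths at minimum semidegree `(1/2 + ε) k`. -/
theorem antidirected :
    ∀ ε : ℝ, 0 < ε → ∃ k₀ : ℕ, ∀ k : ℕ, k₀ ≤ k → ∀ σ : Fin k → Bool,
      (∀ i j : Fin k, (j : ℕ) = i + 1 → σ i ≠ σ j) →
      ∀ (V : Type) [Finite V] [Nonempty V] (G : Digraph V),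
      (∀ u v, G.Adj u v → ¬ G.Adj v u) →
      (∀ v, (1 / 2 + ε) * (k : ℝ) ≤ ({w | G.Adj v w}.ncard : ℝ) ∧
        (1 / 2 + ε) * (k : ℝ) ≤ ({w | G.Adj w v}.ncard : ℝ)) →
      ∃ f : Fin (k + 1) → V, Function.Injective f ∧
        ∀ i : Fin k, (σ i = true → G.Adj (f i.castSucc) (f i.succ)) ∧
          (σ i = false → G.Adj (f i.succ) (f i.castSucc)) := by
  intro ε hε
  obtain ⟨k₀, h⟩ := result ε hε
  refine ⟨k₀, ?_⟩
  intro k hk σ hσ V _ _ G hG hlow
  apply h k hk σ Finset.univ (fun i _ j _ hij => hσ i j hij) V G hG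
  intro v
  have := hlow v
  rw [Finset.card_univ, Fintype.card_fin]
  constructor <;> linarith

end Pool.Agent.Results.MP_f8e2d3_co.AllHosts
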