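import Pool.Agent.Helper20.Rnd.Main

/-!
# Every oriented path in every oriented graph of minimum semidegree at least `49 k / 50 + 1`
-/

set_option autoImplicit false

namespace Pool.Agent.Results.MP_f8e2d3_co.EveryOrientedPath

open Pool.Agent.Helper20 in
/-- Every finite nonempty oriented graph in which all out-degrees and all in-degrees are at least
`49 k / 50 + 1` contains every oriented path with `k` arcs. -/
theorem result :
    ∀ (k : ℕ) (V : Type) [Finite V] [Nonempty V] (G : Digraph V),
      (∀ u v, G.Adj u v → ¬ G.Adj v u) →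
      (∀ v, 49 * k + 50 ≤ 50 * {w | G.Adj v w}.ncard ∧
        49 * k + 50 ≤ 50 * {w | G.Adj w v}.ncard) →
      ∀ σ : Fin k → Bool, ∃ f : Fin (k + 1) → V, Function.Injective f ∧
        ∀ i : Fin k, (σ i = true → G.Adj (f i.castSucc) (f i.succ)) ∧
          (σ i = false → G.Adj (f i.succ) (f i.castSucc)) := by
  classical
  intro k V _ _ G hG hd σ
  have hfin : Nonempty (Fintype V) := ⟨Fintype.ofFinite V⟩
  obtain ⟨hF⟩ := hfin
  set R : Bool → V → V → Prop := fun b v w => if b = true then G.Adj v w else G.Adj w v with hR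
  have hRt : ∀ v w, R true v w ↔ G.Adj v w := fun v w => by simp [hR]
  have hRf : ∀ v w, R false v w ↔ G.Adj w v := fun v w => by simp [hR]
  have hR1 : ∀ b x y, R b x y → R (!b) y x := by
    intro b x y h
    cases b
    · exact (hRt _ _).2 ((hRf _ _).1 h)
    · exact (hRf _ _).2 ((hRt _ _).1 h)
  have hR2 : ∀ b x y, R b x y → ¬ R b y x := by
    intro b x y h h'
    cases b
    · exact hG _ _ ((hRf _ _).1 h) ((hRf _ _).1 h')
    · exact hG _ _ ((hRt _ _).1 h) ((hRt _ _).1 h')
  set P : ℕ → Bool := fun t => if h : t < k then σ ⟨t, h⟩ else true with hP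
  have hPσ : ∀ i : Fin k, P i = σ i := fun i => by simp [hP]
  have hcard : ∀ b v, (Turn.N R b v).card = {w | R b v w}.ncard := by
    intro b v
    rw [← Set.ncard_coe_finset]
    congr 1
    ext w
    simp [Turn.N]
  set d := (49 * k + 50 + 49) / 50 with hdd
  have hdN : ∀ b v, d ≤ (Turn.N R b v).card := by
    intro b v
    have h1 := hd v
    rw [hcard]
    cases b
    · have e1 : {w | R false v w} = {w | G.Adj w v} := by
        ext w; exact hRf v w
      rw [e1]
      omega
    · have e1 : {w | R true v w} = {w | G.Adj v w} := by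
        ext w; exact hRt v w
      rw [e1]
      omega
  obtain ⟨f, hf1, hf2⟩ := Rnd.main (P := P) hR1 hR2 inferInstance d k hdN (by omega)
  refine ⟨fun i => f i, ?_, ?_⟩
  · intro a b hab
    exact Fin.ext (hf1 a (Nat.lt_succ_iff.1 a.2) b (Nat.lt_succ_iff.1 b.2) hab)
  · intro i
    have h1 := hf2 i i.2
    rw [hPσ] at h1
    refine ⟨fun hs => ?_, fun hs => ?_⟩
    · rw [hs] at h1
      exact (hRt _ _).1 h1
    · rw [hs] at h1
      exact (hRf _ _).1 h1

end Pool.Agent.Results.MP_f8e2d3_co.EveryOrientedPath
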