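import Pool.Agent.Helper1.OE.Main

/-!
# Every oriented path, asymptotically optimal semidegree, hosts with bounded out-degrees
(or bounded in-degrees)
-/

set_option autoImplicit false

namespace Pool.Agent.Results.MP_f8e2d3_co.OneSidedDegrees

/-- For every `ε > 0` there are `c > 0` and `k₀` such that for every `k ≥ k₀` every finite nonempty
oriented graph all of whose out-degrees and in-degrees are at least `(1/2 + ε) k`, and in which all
out-degrees are at most `exp (c k)` or all in-degrees are at most `exp (c k)`, contains every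
oriented path with `k` arcs. There is no upper bound on the degrees in the other direction. -/
theorem result :
    ∀ ε : ℝ, 0 < ε → ∃ c : ℝ, 0 < c ∧ ∃ k₀ : ℕ, ∀ k : ℕ, k₀ ≤ k →
      ∀ (V : Type) [Finite V] [Nonempty V] (G : Digraph V),
      (∀ u v, G.Adj u v → ¬ G.Adj v u) →
      (∀ v, (1 / 2 + ε) * (k : ℝ) ≤ ({w | G.Adj v w}.ncard : ℝ) ∧
        (1 / 2 + ε) * (k : ℝ) ≤ ({w | G.Adj w v}.ncard : ℝ)) →
      ((∀ v, ({w | G.Adj v w}.ncard : ℝ) ≤ Real.exp (c * k)) ∨
        (∀ v, ({w | G.Adj w v}.ncard : ℝ) ≤ Real.exp (c * k))) →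
      ∀ σ : Fin k → Bool, ∃ f : Fin (k + 1) → V, Function.Injective f ∧
        ∀ i : Fin k, (σ i = true → G.Adj (f i.castSucc) (f i.succ)) ∧
          (σ i = false → G.Adj (f i.succ) (f i.castSucc)) := by
  classical
  intro ε hε
  obtain ⟨c, hc, k₀, hmain⟩ := Pool.Agent.Helper1.OE.main ε hε
  refine ⟨c, hc, k₀, ?_⟩
  intro k hk V _ _ G hG hlow hup σ
  have hfin : Nonempty (Fintype V) := ⟨Fintype.ofFinite V⟩
  obtain ⟨hF⟩ := hfin
  set R : Bool → V → V → Prop := fun b v w => if b = true then G.Adj v w else G.Adj w v with hR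
  have hRt : ∀ v w, R true v w ↔ G.Adj v w := fun v w => by simp [hR]
  have hRf : ∀ v w, R false v w ↔ G.Adj w v := fun v w => by simp [hR]
  set N : Bool → V → Finset V := fun b v => Finset.univ.filter fun w => R b v w with hN
  have hmem : ∀ b v w, w ∈ N b v ↔ R b v w := fun b v w => by simp [hN]
  have hR1 : ∀ b x y, y ∈ N b x → x ∈ N (!b) y := by
    intro b x y h
    rw [hmem] at h ⊢
    cases b
    · exact (hRt _ _).2 ((hRf _ _).1 h)
    · exact (hRf _ _).2 ((hRt _ _).1 h)
  have hR2 : ∀ b x y, y ∈ N b x → x ∉ N b y := by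
    intro b x y h h'
    rw [hmem] at h h'
    cases b
    · exact hG _ _ ((hRf _ _).1 h) ((hRf _ _).1 h')
    · exact hG _ _ ((hRt _ _).1 h) ((hRt _ _).1 h')
  have hcardt : ∀ v, (N true v).card = {w | G.Adj v w}.ncard := by
    intro v
    rw [← Set.ncard_coe_finset]
    congr 1
    ext w
    rw [Finset.mem_coe, hmem, hRt]
    rfl
  have hcardf : ∀ v, (N false v).card = {w | G.Adj w v}.ncard := by
    intro v
    rw [← Set.ncard_coe_finset]
    congr 1
    ext w
    rw [Finset.mem_coe, hmem, hRf]
    rfl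
  have hdeg : ∀ b v, (1 / 2 + ε) * (k : ℝ) ≤ (N b v).card := by
    intro b v
    cases b
    · rw [hcardf]
      exact (hlow v).2
    · rw [hcardt]
      exact (hlow v).1
  -- a path for the letters `σ`, in the neighbourhoods `N`
  have hpath : ∃ X : ℕ → V, (∀ i : Fin k, X (i + 1) ∈ N (σ i) (X i)) ∧
      (∀ i ≤ k, ∀ i' ≤ k, X i = X i' → i = i') := by
    obtain hup | hup := hup
    · set P : ℕ → Bool := fun t => if h : t < k then σ ⟨t, h⟩ else false with hP
      have hPσ : ∀ i : Fin k, P i = σ i := fun i => by simp [hP]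
      obtain ⟨X, hX1, hX2⟩ := hmain k hk P
        (by
          intro p hp
          simp [hP, not_lt.2 hp])
        V N hR2 hR1 hdeg
        (by
          intro v
          rw [hcardt]
          exact hup v)
      refine ⟨X, ?_, hX2⟩
      intro i
      rw [← hPσ]
      exact hX1 i i.2
    · set P : ℕ → Bool := fun t => if h : t < k then !σ ⟨t, h⟩ else false with hP
      have hPσ : ∀ i : Fin k, (!P i) = σ i := fun i => by simp [hP]
      obtain ⟨X, hX1, hX2⟩ := hmain k hk P
        (by
          intro p hp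
          simp [hP, not_lt.2 hp])
        V (fun b => N (!b))
        (fun b => hR2 (!b)) (fun b => hR1 (!b)) (fun b => hdeg (!b))
        (by
          intro v
          show ((N false v).card : ℝ) ≤ _
          rw [hcardf]
          exact hup v)
      refine ⟨X, ?_, hX2⟩
      intro i
      rw [← hPσ]
      exact hX1 i i.2
  obtain ⟨X, hX1, hX2⟩ := hpath
  refine ⟨fun i => X i, ?_, ?_⟩
  · intro a b hab
    exact Fin.ext (hX2 a (Nat.lt_succ_iff.1 a.2) b (Nat.lt_succ_iff.1 b.2) hab)
  · intro i
    have h1 := hX1 i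
    rw [hmem] at h1
    refine ⟨fun hs => ?_, fun hs => ?_⟩
    · rw [hs] at h1
      exact (hRt _ _).1 h1
    · rw [hs] at h1
      exact (hRf _ _).1 h1

end Pool.Agent.Results.MP_f8e2d3_co.OneSidedDegrees
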