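import Pool.Agent.Helper95.Stein.Core

/-!
`MP_f8e2d3_co`: oriented paths in digraphs in which the ends of every arc have few common
out-neighbours and few common in-neighbours.
-/

set_option autoImplicit false

namespace Pool.Agent.Results.MP_f8e2d3_co.FewTransitiveTriangles

open Pool.Agent.Helper95.Stein

/-- Let `G` be a finite loopless digraph in which the ends of every arc have at most `t` common
out-neighbours and at most `t` common in-neighbours, and in which all out-degrees and in-degrees
are larger than `k / 2 + √(2 k t)`. Then `G` contains every oriented path with `k` arcs. For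
`t = 0` this is the conjectured bound `k / 2`, for all digraphs without transitive triangles. -/
theorem result :
    ∀ (k t : ℕ) (V : Type) [Finite V] [Nonempty V] (G : Digraph V),
      (∀ v, ¬ G.Adj v v) →
      (∀ u v, G.Adj u v → {w | G.Adj u w ∧ G.Adj v w}.ncard ≤ t ∧
        {w | G.Adj w u ∧ G.Adj w v}.ncard ≤ t) →
      (∀ v, (k : ℝ) / 2 + Real.sqrt (2 * k * t) < ({w | G.Adj v w}.ncard : ℝ) ∧
        (k : ℝ) / 2 + Real.sqrt (2 * k * t) < ({w | G.Adj w v}.ncard : ℝ)) →
      ∀ σ : Fin k → Bool, ∃ f : Fin (k + 1) → V, Function.Injective f ∧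
        ∀ i : Fin k, (σ i = true → G.Adj (f i.castSucc) (f i.succ)) ∧
          (σ i = false → G.Adj (f i.succ) (f i.castSucc)) := by
  intro k t V _ _ G hloop hcod hdeg σ
  have hfin : Nonempty (Fintype V) := ⟨Fintype.ofFinite V⟩
  obtain ⟨hF⟩ := hfin
  set R : Bool → V → V → Prop := fun b v w => if b = true then G.Adj v w else G.Adj w v with hR
  have hRt : ∀ v w, R true v w ↔ G.Adj v w := fun v w => by simp [hR]
  have hRf : ∀ v w, R false v w ↔ G.Adj w v := fun v w => by simp [hR]
  have hc : ∀ (P : V → Prop) [DecidablePred P],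
      (Finset.univ.filter P).card = {w | P w}.ncard := by
    intro P _
    rw [← Set.ncard_coe_finset]
    congr 1
    ext w
    simp
  have hRloop : ∀ b v, ¬ R b v v := by
    intro b v
    cases b
    · rw [hRf]; exact hloop v
    · rw [hRt]; exact hloop v
  -- the least semidegree
  obtain ⟨v0, -, hv0⟩ := Finset.exists_min_image (Finset.univ : Finset V)
    (fun v => min {w | G.Adj v w}.ncard {w | G.Adj w v}.ncard) Finset.univ_nonempty
  set d := min {w | G.Adj v0 w}.ncard {w | G.Adj w v0}.ncard with hd
  have hd1 : (k : ℝ) / 2 + Real.sqrt (2 * k * t) < d := by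
    rcases min_choice {w | G.Adj v0 w}.ncard {w | G.Adj w v0}.ncard with h | h
    · rw [hd, h]; exact (hdeg v0).1
    · rw [hd, h]; exact (hdeg v0).2
  have hRdeg : ∀ b v, d ≤ {w | R b v w}.ncard := by
    intro b v
    have h1 := hv0 v (Finset.mem_univ v)
    cases b
    · have e1 : {w | R false v w} = {w | G.Adj w v} := by
        ext w; exact hRf v w
      rw [e1]
      exact h1.trans (min_le_right _ _)
    · have e1 : {w | R true v w} = {w | G.Adj v w} := by
        ext w; exact hRt v w
      rw [e1]
      exact h1.trans (min_le_left _ _)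
  have hRcod : ∀ b b' x y, R b' x y → {w | R b w x ∧ R b w y}.ncard ≤ t := by
    intro b b' x y hxy
    have key : ∀ x y, G.Adj x y → {w | R b w x ∧ R b w y}.ncard ≤ t := by
      intro x y h
      cases b
      · have e1 : {w | R false w x ∧ R false w y} = {w | G.Adj x w ∧ G.Adj y w} := by
          ext w; exact and_congr (hRf w x) (hRf w y)
        rw [e1]
        exact (hcod x y h).1
      · have e1 : {w | R true w x ∧ R true w y} = {w | G.Adj w x ∧ G.Adj w y} := by
          ext w; exact and_congr (hRt w x) (hRt w y)
        rw [e1]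
        exact (hcod x y h).2
    cases b'
    · have e1 : {w | R b w x ∧ R b w y} = {w | R b w y ∧ R b w x} := by
        ext w; exact and_comm
      rw [e1]
      exact key y x ((hRf x y).1 hxy)
    · exact key x y ((hRt x y).1 hxy)
  obtain ⟨p, hp⟩ := choice k t d hd1
  obtain ⟨f, hf1, hf2, -⟩ := path R hRloop t p d k
    (fun b v => by rw [hc]; exact hRdeg b v)
    (fun b b' x y h => by rw [hc]; exact hRcod b b' x y h) hp
    (fun i => if h : i < k then σ ⟨i, h⟩ else true) k le_rfl
  refine ⟨fun i => f i, ?_, ?_⟩
  · intro a b hab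
    exact Fin.ext (hf1 a (Nat.lt_succ_iff.1 a.2) b (Nat.lt_succ_iff.1 b.2) hab)
  · intro i
    have h1 := hf2 i i.2
    rw [dif_pos i.2] at h1
    constructor
    · intro hs
      have h2 : R true (f i) (f (i + 1)) := by
        have e : σ ⟨(i : ℕ), i.2⟩ = true := hs
        rw [e] at h1; exact h1
      exact (hRt _ _).1 h2
    · intro hs
      have h2 : R false (f i) (f (i + 1)) := by
        have e : σ ⟨(i : ℕ), i.2⟩ = false := hs
        rw [e] at h1; exact h1
      exact (hRf _ _).1 h2

end Pool.Agent.Results.MP_f8e2d3_co.FewTransitiveTriangles
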